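import Mathlib

/-!
# Sums of greatest common divisors
-/

namespace Q29.AG

open Filter

/-- the sum of the gcd's is at least the sum over primes -/
theorem gcd_ge (P : Finset ℕ) (hP : ∀ p ∈ P, p.Prime) {g : ℕ} (hg : 0 < g) :
    ∑ p ∈ P, (if p ∣ g then (p - 1) else 0) ≤ g := by
  conv_rhs => rw [← Nat.sum_totient g]
  rw [← Finset.sum_filter]
  calc ∑ p ∈ P.filter (fun p => p ∣ g), (p - 1) = ∑ p ∈ P.filter (fun p => p ∣ g), p.totient := by
        apply Finset.sum_congr rfl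
        intro p hp
        rw [Finset.mem_filter] at hp
        rw [Nat.totient_prime (hP p hp.1)]
    _ ≤ ∑ d ∈ g.divisors, d.totient := by
        apply Finset.sum_le_sum_of_subset
        intro p hp
        rw [Finset.mem_filter] at hp
        exact Nat.mem_divisors.mpr ⟨hp.2, hg.ne'⟩

theorem card_mult (n p : ℕ) (hpn : p ∣ n) :
    ((Finset.Icc 1 n).filter fun x => p ∣ x).card = n / p := by
  have : (Finset.Icc 1 n).filter (fun x => p ∣ x) = (Finset.Ioc 0 n).filter (fun x => p ∣ x) := by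
    ext x; simp [Finset.mem_Icc, Finset.mem_Ioc, Nat.succ_le_iff]
  rw [this, Nat.Ioc_filter_dvd_card_eq_div]

theorem sum_gcd_ge (P : Finset ℕ) (hP : ∀ p ∈ P, p.Prime) {n : ℕ} (hn : ∀ p ∈ P, p ∣ n) :
    ∑ p ∈ P, (p - 1) * ((n / p) * (n / p)) ≤
      ∑ t ∈ Finset.Icc 1 n ×ˢ Finset.Icc 1 n, Nat.gcd t.1 t.2 := by
  calc ∑ p ∈ P, (p - 1) * ((n / p) * (n / p))
      = ∑ p ∈ P, ∑ t ∈ Finset.Icc 1 n ×ˢ Finset.Icc 1 n,
          (if p ∣ Nat.gcd t.1 t.2 then (p - 1) else 0) := by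
        apply Finset.sum_congr rfl
        intro p hp
        rw [← Finset.sum_filter, Finset.sum_const, smul_eq_mul, mul_comm]
        congr 1
        have : (Finset.Icc 1 n ×ˢ Finset.Icc 1 n).filter (fun t => p ∣ Nat.gcd t.1 t.2) =
            ((Finset.Icc 1 n).filter fun x => p ∣ x) ×ˢ ((Finset.Icc 1 n).filter fun x => p ∣ x) := by
          ext t
          simp only [Finset.mem_filter, Finset.mem_product, Nat.dvd_gcd_iff]
          tauto
        rw [this, Finset.card_product, card_mult n p (hn p hp)]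
    _ = ∑ t ∈ Finset.Icc 1 n ×ˢ Finset.Icc 1 n, ∑ p ∈ P,
          (if p ∣ Nat.gcd t.1 t.2 then (p - 1) else 0) := Finset.sum_comm
    _ ≤ _ := by
        apply Finset.sum_le_sum
        intro t ht
        rw [Finset.mem_product, Finset.mem_Icc, Finset.mem_Icc] at ht
        exact gcd_ge P hP (Nat.gcd_pos_of_pos_left _ (by omega))

/-- the sum of the gcd's grows faster than any multiple of `n²` -/
theorem sum_gcd_unbounded (B : ℕ) : ∃ n : ℕ, 1 ≤ n ∧ B * n ^ 2 ≤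
    ∑ t ∈ Finset.Icc 1 n ×ˢ Finset.Icc 1 n, Nat.gcd t.1 t.2 := by
  have h1 := not_summable_one_div_on_primes
  rw [not_summable_iff_tendsto_nat_atTop_of_nonneg] at h1
  · obtain ⟨N, hN⟩ := (h1.eventually (eventually_ge_atTop (2 * (B : ℝ)))).exists
    set P := (Finset.range N).filter Nat.Prime with hP
    have hPp : ∀ p ∈ P, p.Prime := fun p hp => (Finset.mem_filter.mp hp).2
    have hsum : 2 * (B : ℝ) ≤ ∑ p ∈ P, 1 / (p : ℝ) := by
      refine hN.trans (le_of_eq ?_)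
      rw [hP, Finset.sum_filter]
      apply Finset.sum_congr rfl
      intro i _
      simp [Set.indicator_apply]
    set n := ∏ p ∈ P, p with hn
    have hnpos : 0 < n := Finset.prod_pos fun p hp => (hPp p hp).pos
    have hdvd : ∀ p ∈ P, p ∣ n := fun p hp => Finset.dvd_prod_of_mem _ hp
    refine ⟨n, hnpos, le_trans ?_ (sum_gcd_ge P hPp hdvd)⟩
    have hR : ((B * n ^ 2 : ℕ) : ℝ) ≤ ((∑ p ∈ P, (p - 1) * ((n / p) * (n / p)) : ℕ) : ℝ) := by
      push_cast
      have hterm : ∀ p ∈ P, (n : ℝ) ^ 2 / 2 * (1 / (p : ℝ)) ≤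
          ((p - 1 : ℕ) : ℝ) * (((n / p : ℕ) : ℝ) * ((n / p : ℕ) : ℝ)) := by
        intro p hp
        have hpp := hPp p hp
        have hp2 : (2 : ℝ) ≤ p := by exact_mod_cast hpp.two_le
        rw [Nat.cast_sub hpp.one_le, Nat.cast_div (hdvd p hp) (by exact_mod_cast hpp.ne_zero)]
        have hp0 : (0 : ℝ) < p := by linarith
        rw [Nat.cast_one, div_mul_div_comm, div_mul_div_comm, mul_one,
          mul_div_assoc', div_le_div_iff₀ (by positivity) (by positivity)]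
        have hn0 : (0 : ℝ) ≤ (n : ℝ) ^ 2 := by positivity
        nlinarith [mul_nonneg hn0 (mul_nonneg hp0.le (by linarith : (0 : ℝ) ≤ (p : ℝ) - 2))]
      calc (B : ℝ) * (n : ℝ) ^ 2 = (n : ℝ) ^ 2 / 2 * (2 * B) := by ring
        _ ≤ (n : ℝ) ^ 2 / 2 * ∑ p ∈ P, 1 / (p : ℝ) := by gcongr
        _ = ∑ p ∈ P, (n : ℝ) ^ 2 / 2 * (1 / (p : ℝ)) := by rw [Finset.mul_sum]
        _ ≤ _ := Finset.sum_le_sum hterm
    exact_mod_cast hR
  · intro n
    simp only [Set.indicator_apply]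
    split_ifs <;> positivity

/-- the sum of the integer parts `N / d` is `O(N log N)` -/
theorem sum_div_le (N : ℕ) : ((∑ d ∈ Finset.Icc 1 N, N / d : ℕ) : ℝ) ≤ N * (1 + Real.log N) := by
  have h1 : ((harmonic N : ℚ) : ℝ) ≤ 1 + Real.log N := harmonic_le_one_add_log N
  have h2 : ((harmonic N : ℚ) : ℝ) = ∑ d ∈ Finset.Icc 1 N, (d : ℝ)⁻¹ := by
    rw [harmonic_eq_sum_Icc]
    push_cast
    rfl
  rw [h2] at h1
  calc ((∑ d ∈ Finset.Icc 1 N, N / d : ℕ) : ℝ) = ∑ d ∈ Finset.Icc 1 N, ((N / d : ℕ) : ℝ) := by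
        push_cast; rfl
    _ ≤ ∑ d ∈ Finset.Icc 1 N, (N : ℝ) * (d : ℝ)⁻¹ := by
        apply Finset.sum_le_sum
        intro d _
        rw [← div_eq_mul_inv]
        exact Nat.cast_div_le
    _ = N * ∑ d ∈ Finset.Icc 1 N, (d : ℝ)⁻¹ := by rw [Finset.mul_sum]
    _ ≤ _ := by gcongr

end Q29.AG
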