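import Mathlib

/-!
# Automorphic growth: definitions
-/

namespace Q29.AG

/-- The word length of `g` with respect to the set `S`: the least length of a word in the elements
of `S` and their inverses whose product is `g`. -/
noncomputable def wordLen {G : Type*} [Group G] (S : Set G) (g : G) : ℕ :=
  sInf {n : ℕ | ∃ l : List G, l.length = n ∧ (∀ x ∈ l, x ∈ S ∨ x⁻¹ ∈ S) ∧ l.prod = g}

/-- The length of a subset `O` (an orbit): the least word length of its elements. -/
noncomputable def orbitLen {G : Type*} [Group G] (S : Set G) (O : Set G) : ℕ :=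
  sInf (wordLen S '' O)

/-- The automorphic growth function: the number of orbits of `Aut(G)` of length at most `n`. -/
noncomputable def autGrowth {G : Type*} [Group G] (S : Set G) (n : ℕ) : ℕ :=
  {O : Set G | (∃ g : G, O = MulAction.orbit (MulAut G) g) ∧ orbitLen S O ≤ n}.ncard

/-- The relation `f ≼ g`: some integer `c ≥ 1` satisfies `f n ≤ c g(c n + c) + c` for all `n`. -/
def Dominated (f g : ℕ → ℕ) : Prop := ∃ c : ℕ, 1 ≤ c ∧ ∀ n, f n ≤ c * g (c * n + c) + c

/-- The relation `f ∼ g`. -/
def Equivalent (f g : ℕ → ℕ) : Prop := Dominated f g ∧ Dominated g f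

/-- The growth rate of `f` is polynomially bounded. -/
def PolynomiallyBounded (f : ℕ → ℕ) : Prop := ∃ d : ℕ, Dominated f fun n => n ^ d

/-- The growth rate of `f` is polynomial: `f ∼ n^k` for some integer `k ≥ 0`. -/
def IsPolynomial (f : ℕ → ℕ) : Prop := ∃ k : ℕ, Equivalent f fun n => n ^ k

end Q29.AG
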