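import Pool.Agent.Q29.AG.Defs

/-!
# The group: an extension of a Heisenberg group by the units of the Gaussian integers
-/

namespace Q29.AG

/-- the Gaussian integers -/
abbrev Gi : Type := GaussianInt

/-- the area form -/
def om (v w : Gi) : ℤ := v.re * w.im - v.im * w.re

theorem om_add_left (u v w : Gi) : om (u + v) w = om u w + om v w := by
  simp [om]; ring

theorem om_add_right (u v w : Gi) : om u (v + w) = om u v + om u w := by
  simp [om]; ring

theorem om_neg_right (u v : Gi) : om u (-v) = -om u v := by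
  simp [om]; ring

theorem om_neg_left (u v : Gi) : om (-u) v = -om u v := by
  simp [om]; ring

theorem om_self (u : Gi) : om u u = 0 := by
  simp [om]; ring

theorem om_zero_left (u : Gi) : om 0 u = 0 := by simp [om]

theorem om_zero_right (u : Gi) : om u 0 = 0 := by simp [om]

theorem om_swap (u v : Gi) : om u v = -om v u := by simp [om]; ring

/-- the four units -/
theorem unit_cases (e : Giˣ) : (e : Gi) = 1 ∨ (e : Gi) = -1 ∨ (e : Gi) = ⟨0, 1⟩ ∨
    (e : Gi) = ⟨0, -1⟩ := by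
  have h : (e : Gi).norm = 1 := (Zsqrtd.norm_eq_one_iff' (by norm_num) _).mpr e.isUnit
  rw [Zsqrtd.norm_def] at h
  generalize (e : Gi) = x at h
  obtain ⟨a, b⟩ := x
  simp only at h
  have ha : a * a ≤ 1 := by nlinarith [mul_self_nonneg b]
  have hb : b * b ≤ 1 := by nlinarith [mul_self_nonneg a]
  have ha1 : a ≤ 1 := by nlinarith
  have ha2 : -1 ≤ a := by nlinarith
  have hb1 : b ≤ 1 := by nlinarith
  have hb2 : -1 ≤ b := by nlinarith
  interval_cases a <;> interval_cases b <;> simp_all [Zsqrtd.ext_iff]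

instance : Finite Giˣ := by
  have hf : Set.Finite ({(1 : Gi), -1, ⟨0, 1⟩, ⟨0, -1⟩} : Set Gi) := Set.toFinite _
  have : Finite ({(1 : Gi), -1, ⟨0, 1⟩, ⟨0, -1⟩} : Set Gi) := hf
  let f : Giˣ → ({(1 : Gi), -1, ⟨0, 1⟩, ⟨0, -1⟩} : Set Gi) := fun e => ⟨(e : Gi), by
      rcases unit_cases e with h | h | h | h <;> rw [h] <;> simp⟩
  have hinj : Function.Injective f := by
    intro e e' h
    simp only [f, Subtype.mk.injEq] at h
    exact Units.ext h
  exact Finite.of_injective f hinj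

theorem om_unit (e : Giˣ) (v w : Gi) : om (e * v) (e * w) = om v w := by
  rcases unit_cases e with h | h | h | h <;> rw [h] <;> simp [om] <;> ring

/-- the group -/
@[ext] structure W where
  v : Gi
  z : ℤ
  e : Giˣ

namespace W

instance : Group W where
  mul a b := ⟨a.v + a.e * b.v, a.z + b.z + om a.v (a.e * b.v), a.e * b.e⟩
  one := ⟨0, 0, 1⟩
  inv a := ⟨-((a.e⁻¹ : Giˣ) * a.v), -a.z, a.e⁻¹⟩
  mul_assoc := by
    intro a b c
    apply W.ext
    · change a.v + a.e * b.v + ((a.e * b.e : Giˣ) : Gi) * c.v = a.v + a.e * (b.v + b.e * c.v)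
      rw [Units.val_mul]; ring
    · change a.z + b.z + om a.v (a.e * b.v) + c.z +
          om (a.v + a.e * b.v) (((a.e * b.e : Giˣ) : Gi) * c.v) =
        a.z + (b.z + c.z + om b.v (b.e * c.v)) + om a.v (a.e * (b.v + b.e * c.v))
      rw [Units.val_mul, mul_assoc, om_add_left, om_unit, mul_add, om_add_right]
      ring
    · exact mul_assoc _ _ _
  one_mul := by
    intro a
    apply W.ext
    · change 0 + ((1 : Giˣ) : Gi) * a.v = a.v
      simp
    · change 0 + a.z + om 0 (((1 : Giˣ) : Gi) * a.v) = a.z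
      rw [om_zero_left]; ring
    · exact one_mul _
  mul_one := by
    intro a
    apply W.ext
    · change a.v + a.e * 0 = a.v
      simp
    · change a.z + 0 + om a.v (a.e * 0) = a.z
      rw [mul_zero, om_zero_right]; ring
    · exact mul_one _
  inv_mul_cancel := by
    intro a
    apply W.ext
    · change -((a.e⁻¹ : Giˣ) * a.v) + ((a.e⁻¹ : Giˣ) : Gi) * a.v = 0
      ring
    · change -a.z + a.z + om (-((a.e⁻¹ : Giˣ) * a.v)) (((a.e⁻¹ : Giˣ) : Gi) * a.v) = 0
      rw [om_neg_left, om_self]; ring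
    · exact inv_mul_cancel _

theorem mul_v (a b : W) : (a * b).v = a.v + a.e * b.v := rfl
theorem mul_z (a b : W) : (a * b).z = a.z + b.z + om a.v (a.e * b.v) := rfl
theorem mul_e (a b : W) : (a * b).e = a.e * b.e := rfl
theorem one_v : (1 : W).v = 0 := rfl
theorem one_z : (1 : W).z = 0 := rfl
theorem one_e : (1 : W).e = 1 := rfl
theorem inv_v (a : W) : (a⁻¹).v = -((a.e⁻¹ : Giˣ) * a.v) := rfl
theorem inv_z (a : W) : (a⁻¹).z = -a.z := rfl
theorem inv_e (a : W) : (a⁻¹).e = a.e⁻¹ := rfl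

/-- the elements of the Heisenberg group -/
def h (v : Gi) (z : ℤ) : W := ⟨v, z, 1⟩

/-- the unit `i` -/
def iu : Giˣ := ⟨⟨0, 1⟩, ⟨0, -1⟩, by decide, by decide⟩

/-- the rotation -/
def tau : W := ⟨0, 0, iu⟩

theorem h_mul (v w : Gi) (z y : ℤ) : h v z * h w y = h (v + w) (z + y + om v w) := by
  apply W.ext
  · rw [mul_v]; simp [h]
  · rw [mul_z]; simp [h]
  · rw [mul_e]; simp [h]

theorem h_inv (v : Gi) (z : ℤ) : (h v z)⁻¹ = h (-v) (-z) := by
  apply W.ext
  · rw [inv_v]; simp [h]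
  · rw [inv_z]; simp [h]
  · rw [inv_e]; simp [h]

theorem h_one : h 0 0 = 1 := rfl

theorem eq_h {g : W} (hg : g.e = 1) : g = h g.v g.z := by
  apply W.ext <;> simp [h, hg]

/-- the center -/
theorem mem_center (g : W) : g ∈ Subgroup.center W ↔ g.v = 0 ∧ g.e = 1 := by
  rw [Subgroup.mem_center_iff]
  constructor
  · intro H
    have h1 := congrArg W.v (H (h 1 0))
    rw [mul_v, mul_v] at h1
    simp only [h, Units.val_one, one_mul, mul_one] at h1
    have he : (g.e : Gi) = 1 := by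
      rw [add_comm] at h1
      exact (add_left_cancel h1).symm
    have h2 := congrArg W.v (H tau)
    rw [mul_v, mul_v] at h2
    simp only [tau, mul_zero, add_zero, zero_add] at h2
    have h3 : (iu : Gi) = ⟨0, 1⟩ := rfl
    rw [h3] at h2
    have h4 := congrArg Zsqrtd.re h2
    have h5 := congrArg Zsqrtd.im h2
    simp at h4 h5
    refine ⟨?_, Units.ext he⟩
    apply Zsqrtd.ext
    · change g.v.re = 0; omega
    · change g.v.im = 0; omega
  · rintro ⟨h1, h2⟩ k
    apply W.ext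
    · rw [mul_v, mul_v, h1, h2]; simp
    · rw [mul_z, mul_z, h1, h2]; simp [om_zero_left, om_zero_right]; ring
    · rw [mul_e, mul_e, h2]; simp

theorem pow_four_of_ne {g : W} (hg : g.e ≠ 1) : g ^ 4 ∈ Subgroup.center W := by
  have e2 : g ^ 4 = (g * g) * (g * g) := by
    rw [← pow_two, ← pow_two, ← pow_mul]
  rw [mem_center, e2]
  have hne : (g.e : Gi) ≠ 1 := fun h => hg (Units.ext h)
  constructor
  · rw [mul_v, mul_v, mul_e, Units.val_mul]
    rcases unit_cases g.e with h | h | h | h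
    · exact absurd h hne
    · rw [h]; ring
    · rw [h]
      have : (⟨0, 1⟩ : Gi) * ⟨0, 1⟩ = -1 := by decide
      rw [this]; ring
    · rw [h]
      have : (⟨0, -1⟩ : Gi) * ⟨0, -1⟩ = -1 := by decide
      rw [this]; ring
  · apply Units.ext
    rw [mul_e, mul_e, Units.val_mul, Units.val_mul]
    rcases unit_cases g.e with h | h | h | h <;> rw [h] <;> decide

theorem pow_four_of_eq {g : W} (hg : g.e = 1) : g ^ 4 ∈ Subgroup.center W ↔ g.v = 0 := by
  have e2 : g ^ 4 = (g * g) * (g * g) := by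
    rw [← pow_two, ← pow_two, ← pow_mul]
  rw [mem_center, e2]
  constructor
  · rintro ⟨h1, _⟩
    rw [mul_v, mul_v, mul_e, hg] at h1
    simp only [Units.val_one, one_mul, mul_one] at h1
    have h4 := congrArg Zsqrtd.re h1
    have h5 := congrArg Zsqrtd.im h1
    simp at h4 h5
    apply Zsqrtd.ext
    · change g.v.re = 0; omega
    · change g.v.im = 0; omega
  · intro h1
    constructor
    · rw [mul_v, mul_v, mul_e, hg, h1]; simp
    · rw [mul_e, mul_e, hg]; simp

theorem center_aut (θ : MulAut W) (g : W) : θ g ∈ Subgroup.center W ↔ g ∈ Subgroup.center W := by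
  simp only [Subgroup.mem_center_iff]
  constructor
  · intro H k
    apply θ.injective
    rw [map_mul, map_mul, H]
  · intro H k
    obtain ⟨k', rfl⟩ := θ.surjective k
    rw [← map_mul, ← map_mul, H]

/-- the Heisenberg subgroup is characteristic -/
theorem e_aut (θ : MulAut W) {g : W} (hg : g.e = 1) : (θ g).e = 1 := by
  by_cases hv : g.v = 0
  · exact ((mem_center _).mp ((center_aut θ g).mpr ((mem_center _).mpr ⟨hv, hg⟩))).2
  · by_contra hne
    have h1 := pow_four_of_ne hne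
    rw [← map_pow, center_aut, pow_four_of_eq hg] at h1
    exact hv h1

theorem e_aut_iff (θ : MulAut W) (g : W) : (θ g).e = 1 ↔ g.e = 1 := by
  constructor
  · intro H
    have := e_aut θ⁻¹ H
    rwa [MulAut.inv_apply_self] at this
  · exact e_aut θ

/-- the action on the quotient by the center -/
noncomputable def fA (θ : MulAut W) : Gi →+ Gi where
  toFun v := (θ (h v 0)).v
  map_zero' := by rw [h_one, map_one, one_v]
  map_add' v w := by
    have h1 : h (v + w) 0 = (h v 0 * h w 0) * h 0 (-om v w) := by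
      rw [h_mul, h_mul, om_zero_right]
      congr 1 <;> ring
    have h2 : h 0 (-om v w) ∈ Subgroup.center W := (mem_center _).mpr ⟨rfl, rfl⟩
    have h3 := (mem_center _).mp ((center_aut θ _).mpr h2)
    have h4 : (θ (h v 0)).e = 1 := e_aut θ rfl
    have h5 : (θ (h w 0)).e = 1 := e_aut θ rfl
    rw [h1, map_mul, map_mul, mul_v, mul_v, h3.1, h4]
    simp

theorem fA_apply (θ : MulAut W) {g : W} (hg : g.e = 1) : (θ g).v = fA θ g.v := by
  have h1 : g = h g.v 0 * h 0 g.z := by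
    rw [h_mul, om_zero_right]
    conv_lhs => rw [eq_h hg]
    congr 1 <;> ring
  have h2 : h 0 g.z ∈ Subgroup.center W := (mem_center _).mpr ⟨rfl, rfl⟩
  have h3 := (mem_center _).mp ((center_aut θ _).mpr h2)
  conv_lhs => rw [h1]
  rw [map_mul, mul_v, h3.1]
  simp [fA]

theorem fA_eq (θ : MulAut W) (v : Gi) :
    fA θ v = fA θ 1 * (⟨v.re, 0⟩ + ⟨v.im, 0⟩ * ((θ tau).e : Gi)) := by
  have hI : fA θ ⟨0, 1⟩ = ((θ tau).e : Gi) * fA θ 1 := by
    have h1 : tau * h 1 0 = h ⟨0, 1⟩ 0 * tau := by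
      apply W.ext
      · rw [mul_v, mul_v]; simp [h, tau, iu]
      · rw [mul_z, mul_z]; simp [h, tau, om_zero_left, om_zero_right]
      · rw [mul_e, mul_e]; simp [h]
    have h2 := congrArg θ h1
    rw [map_mul, map_mul] at h2
    have h3 := congrArg W.v h2
    have h4 : (θ (h ⟨0, 1⟩ 0)).e = 1 := e_aut θ rfl
    rw [mul_v, mul_v, h4, Units.val_one, one_mul] at h3
    have h5 : (θ (h 1 0)).v = fA θ 1 := rfl
    have h6 : (θ (h ⟨0, 1⟩ 0)).v = fA θ ⟨0, 1⟩ := rfl
    rw [h5, h6, add_comm] at h3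
    exact (add_right_cancel h3).symm
  have hv : v = v.re • (1 : Gi) + v.im • (⟨0, 1⟩ : Gi) := by
    apply Zsqrtd.ext <;> simp
  have e1 : (⟨v.re, 0⟩ : Gi) = ((v.re : ℤ) : Gi) := by
    apply Zsqrtd.ext <;> simp
  have e2 : (⟨v.im, 0⟩ : Gi) = ((v.im : ℤ) : Gi) := by
    apply Zsqrtd.ext <;> simp
  rw [e1, e2]
  conv_lhs => rw [hv]
  rw [map_add, map_zsmul, map_zsmul, hI, zsmul_eq_mul, zsmul_eq_mul]
  ring

theorem fA_unit (θ : MulAut W) : IsUnit (fA θ 1) := by
  obtain ⟨g, hg⟩ := θ.surjective (h 1 0)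
  have he : g.e = 1 := by
    rw [← e_aut_iff θ, hg]; rfl
  have h1 := fA_apply θ he
  rw [hg, fA_eq] at h1
  exact IsUnit.of_mul_eq_one _ h1.symm

/-- the finitely many possible data of an automorphism -/
noncomputable def dat (θ : MulAut W) : Giˣ × Giˣ := ((fA_unit θ).unit, (θ tau).e)

theorem fA_of_dat {θ θ' : MulAut W} (H : dat θ = dat θ') : fA θ = fA θ' := by
  simp only [dat, Prod.mk.injEq] at H
  ext1 v
  rw [fA_eq θ, fA_eq θ', H.2]
  have : fA θ 1 = fA θ' 1 := by
    have := congrArg (fun u : Giˣ => (u : Gi)) H.1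
    simpa using this
  rw [this]

/-- automorphisms acting trivially modulo the center -/
theorem z_of_trivial {ψ : MulAut W} (hψ : ∀ v, fA ψ v = v) (g : W) (hg : g.e = 1) :
    ∃ k : ℤ, (ψ g).z = g.z + k * Int.gcd g.v.re g.v.im := by
  -- values on the elements `h v 0`
  have hv : ∀ v, ψ (h v 0) = h v (ψ (h v 0)).z := by
    intro v
    have h1 : (ψ (h v 0)).e = 1 := e_aut ψ rfl
    have h2 : (ψ (h v 0)).v = v := hψ v
    conv_lhs => rw [eq_h h1, h2]
  have hcen : ∀ z, ψ (h 0 z) = h 0 (ψ (h 0 z)).z := by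
    intro z
    have h1 : (ψ (h 0 z)).e = 1 := e_aut ψ rfl
    have h2 : (ψ (h 0 z)).v = 0 := by
      have := fA_apply ψ (g := h 0 z) rfl
      rw [this]; exact map_zero _
    conv_lhs => rw [eq_h h1, h2]
  -- the center is fixed
  have hadd : ∀ z y, (ψ (h 0 (z + y))).z = (ψ (h 0 z)).z + (ψ (h 0 y)).z := by
    intro z y
    have h1 : h 0 (z + y) = h 0 z * h 0 y := by
      rw [h_mul, om_zero_right, add_zero, add_zero]
    rw [h1, map_mul, hcen z, hcen y, h_mul, om_zero_right]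
    simp [h]
  let Z : ℤ →+ ℤ := AddMonoidHom.mk' (fun z => (ψ (h 0 z)).z) hadd
  have hZ2 : Z 2 = 2 := by
    have h1 : h 1 0 * h ⟨0, 1⟩ 0 = (h ⟨0, 1⟩ 0 * h 1 0) * h 0 2 := by
      rw [h_mul, h_mul, h_mul]
      congr 1
    have h2 := congrArg ψ h1
    rw [map_mul, map_mul, map_mul, hv 1, hv ⟨0, 1⟩, hcen 2, h_mul, h_mul, h_mul] at h2
    have h3 := congrArg W.z h2
    simp only [h, om_zero_right] at h3
    have e1 : om (1 : Gi) ⟨0, 1⟩ = 1 := by simp [om]
    have e2 : om (⟨0, 1⟩ : Gi) 1 = -1 := by simp [om]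
    rw [e1, e2] at h3
    change (ψ (h 0 2)).z = 2
    simp only [h]
    omega
  have hZ1 : Z 1 = 1 := by
    have : Z 2 = Z 1 + Z 1 := by rw [← map_add]; norm_num
    omega
  have hZ : ∀ z, Z z = z := by
    intro z
    have : Z z = z • Z 1 := by rw [← map_zsmul]; simp
    rw [this, hZ1]; simp
  -- the function `ℓ`
  have hladd : ∀ v w, (ψ (h (v + w) 0)).z = (ψ (h v 0)).z + (ψ (h w 0)).z := by
    intro v w
    have h1 : h v 0 * h w 0 = h (v + w) 0 * h 0 (om v w) := by
      rw [h_mul, h_mul, om_zero_right]; congr 1 <;> ring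
    have h2 := congrArg ψ h1
    rw [map_mul, map_mul, hv v, hv w, hv (v + w), hcen, h_mul, h_mul] at h2
    have h3 := congrArg W.z h2
    simp only [h, om_zero_right] at h3
    have h4 : (ψ (⟨0, om v w, 1⟩ : W)).z = om v w := hZ (om v w)
    rw [h4] at h3
    simp only [h]
    omega
  let ℓ : Gi →+ ℤ := AddMonoidHom.mk' (fun v => (ψ (h v 0)).z) hladd
  have hℓ : ∀ v : Gi, ℓ v = v.re * ℓ 1 + v.im * ℓ ⟨0, 1⟩ := by
    intro v
    have hv' : v = v.re • (1 : Gi) + v.im • (⟨0, 1⟩ : Gi) := by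
      apply Zsqrtd.ext <;> simp
    conv_lhs => rw [hv']
    rw [map_add, map_zsmul, map_zsmul]
    simp
  have hdvd : ((Int.gcd g.v.re g.v.im : ℕ) : ℤ) ∣ ℓ g.v := by
    rw [hℓ]
    exact dvd_add (Dvd.dvd.mul_right (Int.gcd_dvd_left ..) _)
      (Dvd.dvd.mul_right (Int.gcd_dvd_right ..) _)
  obtain ⟨k, hk⟩ := hdvd
  refine ⟨k, ?_⟩
  have h1 : g = h g.v 0 * h 0 g.z := by
    rw [h_mul, om_zero_right]
    conv_lhs => rw [eq_h hg]
    congr 1 <;> ring
  conv_lhs => rw [h1]
  rw [map_mul, hv g.v, hcen g.z, h_mul, om_zero_right]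
  have h5 : (ψ (h g.v 0)).z = ℓ g.v := rfl
  have h6 : (ψ (h 0 g.z)).z = g.z := hZ g.z
  simp only [h5, h6, hk]
  simp only [h]
  ring

/-- Two automorphisms with the same data. -/
theorem same_dat {θ θ' : MulAut W} (H : dat θ = dat θ') (p : W) (hp : p.e = 1) :
    (θ p).v = (θ' p).v ∧ ∃ k : ℤ, (θ p).z = (θ' p).z +
      k * Int.gcd (θ' p).v.re (θ' p).v.im := by
  have hf := fA_of_dat H
  refine ⟨by rw [fA_apply θ hp, fA_apply θ' hp, hf], ?_⟩
  have hψ : ∀ v, fA (θ * θ'⁻¹) v = v := by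
    intro v
    have h1 : (θ'⁻¹ (h v 0)).e = 1 := e_aut θ'⁻¹ rfl
    have h2 : fA (θ * θ'⁻¹) v = (θ (θ'⁻¹ (h v 0))).v := rfl
    rw [h2, fA_apply θ h1, hf, ← fA_apply θ' h1, MulAut.apply_inv_self]
    rfl
  have h3 : (θ' p).e = 1 := e_aut θ' hp
  obtain ⟨k, hk⟩ := z_of_trivial hψ (θ' p) h3
  refine ⟨k, ?_⟩
  rw [← hk, MulAut.mul_apply, MulAut.inv_apply_self]

end W

end Q29.AG
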