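import Pool.Agent.Q29.AG.Grp

/-!
# Automorphic growth: general facts, and the lower bound
-/

namespace Q29.AG

section Gen

variable {G : Type*} [Group G]

theorem wordLen_le {S : Set G} (l : List G) (hl : ∀ x ∈ l, x ∈ S ∨ x⁻¹ ∈ S) :
    wordLen S l.prod ≤ l.length :=
  Nat.sInf_le ⟨l, rfl, hl, rfl⟩

theorem exists_word {S : Set G} (hS : Subgroup.closure S = ⊤) (g : G) :
    ∃ l : List G, l.length = wordLen S g ∧ (∀ x ∈ l, x ∈ S ∨ x⁻¹ ∈ S) ∧ l.prod = g := by
  have hne : {n : ℕ | ∃ l : List G, l.length = n ∧ (∀ x ∈ l, x ∈ S ∨ x⁻¹ ∈ S) ∧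
      l.prod = g}.Nonempty := by
    have hg : g ∈ Subgroup.closure S := hS ▸ Subgroup.mem_top g
    rw [← Subgroup.mem_toSubmonoid, Subgroup.closure_toSubmonoid] at hg
    obtain ⟨l, hl, hp⟩ := Submonoid.exists_list_of_mem_closure hg
    exact ⟨l.length, l, rfl, fun x hx => by simpa using hl x hx, hp⟩
  exact Nat.sInf_mem hne

theorem wordLen_one (S : Set G) : wordLen S (1 : G) = 0 := by
  have := wordLen_le (S := S) ([] : List G) (by simp)
  simpa using this

theorem wordLen_mul {S : Set G} (hS : Subgroup.closure S = ⊤) (g h : G) :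
    wordLen S (g * h) ≤ wordLen S g + wordLen S h := by
  obtain ⟨l, hl, hs, rfl⟩ := exists_word hS g
  obtain ⟨l', hl', hs', rfl⟩ := exists_word hS h
  rw [← hl, ← hl', ← List.prod_append, ← List.length_append]
  apply wordLen_le
  intro x hx
  rw [List.mem_append] at hx
  exact hx.elim (hs x) (hs' x)

theorem wordLen_pow {S : Set G} (hS : Subgroup.closure S = ⊤) (g : G) (m : ℕ) :
    wordLen S (g ^ m) ≤ m * wordLen S g := by
  induction m with
  | zero => simp [wordLen_one]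
  | succ m ih =>
    rw [pow_succ]
    have := wordLen_mul hS (g ^ m) g
    linarith [this, ih, Nat.succ_mul m (wordLen S g)]

theorem ball_finite {S : Set G} (hSf : S.Finite) (hS : Subgroup.closure S = ⊤) (n : ℕ) :
    {g : G | wordLen S g ≤ n}.Finite := by
  induction n with
  | zero =>
    apply (Set.finite_singleton (1 : G)).subset
    intro g hg
    obtain ⟨l, hl, _, rfl⟩ := exists_word hS g
    have hg' : wordLen S l.prod ≤ 0 := hg
    have : l = [] := List.length_eq_zero_iff.mp (by omega)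
    subst this
    simp
  | succ n ih =>
    apply (ih.union ((hSf.union hSf.inv).mul ih)).subset
    intro g hg
    obtain ⟨l, hl, hs, rfl⟩ := exists_word hS g
    have hg' : wordLen S l.prod ≤ n + 1 := hg
    match l, hl, hs, hg' with
    | [], _, _, _ => exact Or.inl (by simp [wordLen_one])
    | s :: l', hl, hs, hg' =>
      refine Or.inr ?_
      rw [List.prod_cons]
      apply Set.mul_mem_mul
      · rcases hs s (by simp) with h | h
        · exact Or.inl h
        · exact Or.inr h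
      · have := wordLen_le (S := S) l' fun x hx => hs x (by simp [hx])
        simp only [List.length_cons] at hl
        change wordLen S l'.prod ≤ n
        omega

/-- the orbits of length at most `n` are the orbits of the elements of the ball -/
theorem orbits_eq (S : Set G) (n : ℕ) :
    {O : Set G | (∃ g : G, O = MulAction.orbit (MulAut G) g) ∧ orbitLen S O ≤ n} =
      (fun g => MulAction.orbit (MulAut G) g) '' {g : G | wordLen S g ≤ n} := by
  ext O
  constructor
  · rintro ⟨⟨g, rfl⟩, hO⟩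
    have hne : (wordLen S '' (MulAction.orbit (MulAut G) g)).Nonempty :=
      ⟨_, g, MulAction.mem_orbit_self g, rfl⟩
    obtain ⟨k, hk, hk'⟩ := Nat.sInf_mem hne
    refine ⟨k, ?_, MulAction.orbit_eq_iff.mpr hk⟩
    change wordLen S k ≤ n
    rw [hk']
    exact hO
  · rintro ⟨g, hg, rfl⟩
    refine ⟨⟨g, rfl⟩, ?_⟩
    refine le_trans (Nat.sInf_le ⟨g, MulAction.mem_orbit_self g, rfl⟩) hg

theorem autGrowth_eq (S : Set G) (n : ℕ) : autGrowth S n =
    ((fun g => MulAction.orbit (MulAut G) g) '' {g : G | wordLen S g ≤ n}).ncard := by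
  rw [autGrowth, orbits_eq]

end Gen

namespace W

/-- the representatives used for the lower bound -/
def rep (t : ℕ × ℕ × ℕ) : W := h ⟨t.1, t.2.1⟩ (t.1 * t.2.1 + t.2.2)

theorem rep_inj : Function.Injective rep := by
  rintro ⟨x, y, r⟩ ⟨x', y', r'⟩ H
  have h1 := congrArg W.v H
  have h2 := congrArg W.z H
  simp only [rep, h, Zsqrtd.ext_iff, Nat.cast_inj] at h1 h2
  obtain ⟨rfl, rfl⟩ := h1
  have : r = r' := by omega
  rw [this]

theorem h_pow (v : Gi) (z : ℤ) (m : ℕ) : (h v z) ^ m = h (m * v) (m * z) := by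
  induction m with
  | zero => simp [h_one]
  | succ m ih =>
    rw [pow_succ, ih, h_mul]
    have : om ((m : Gi) * v) v = 0 := by simp [om]; ring
    rw [this]
    congr 1
    · push_cast; ring
    · push_cast; ring

theorem rep_eq (x y r : ℕ) : rep (x, y, r) = h 1 0 ^ x * h ⟨0, 1⟩ 0 ^ y * h 0 1 ^ r := by
  rw [h_pow, h_pow, h_pow, h_mul, h_mul, rep]
  congr 1
  · apply Zsqrtd.ext <;> simp
  · simp [om]

theorem len_rep {S : Set W} (hS : Subgroup.closure S = ⊤) {L : ℕ} (h1 : wordLen S (h 1 0) ≤ L)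
    (h2 : wordLen S (h ⟨0, 1⟩ 0) ≤ L) (h3 : wordLen S (h 0 1) ≤ L) (x y r : ℕ) :
    wordLen S (rep (x, y, r)) ≤ L * (x + y + r) := by
  rw [rep_eq]
  have e1 := wordLen_mul hS (h 1 0 ^ x * h ⟨0, 1⟩ 0 ^ y) (h 0 1 ^ r)
  have e2 := wordLen_mul hS (h 1 0 ^ x) (h ⟨0, 1⟩ 0 ^ y)
  have e3 := wordLen_pow hS (h 1 0) x
  have e4 := wordLen_pow hS (h ⟨0, 1⟩ 0) y
  have e5 := wordLen_pow hS (h 0 1) r
  have e6 : x * wordLen S (h 1 0) ≤ x * L := Nat.mul_le_mul_left _ h1
  have e7 : y * wordLen S (h ⟨0, 1⟩ 0) ≤ y * L := Nat.mul_le_mul_left _ h2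
  have e8 : r * wordLen S (h 0 1) ≤ r * L := Nat.mul_le_mul_left _ h3
  calc _ ≤ x * L + y * L + r * L := by omega
    _ = _ := by ring

/-- the index set of the representatives -/
def T (n : ℕ) : Finset (ℕ × ℕ × ℕ) :=
  ((Finset.Icc 1 n ×ˢ Finset.Icc 1 n).sigma fun p => Finset.range (Nat.gcd p.1 p.2)).map
    ⟨fun s => (s.1.1, s.1.2, s.2), fun s t H => by
      simp only [Prod.mk.injEq] at H
      obtain ⟨⟨a, b⟩, c⟩ := s
      obtain ⟨⟨a', b'⟩, c'⟩ := t
      simp only at H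
      obtain ⟨rfl, rfl, rfl⟩ := H
      rfl⟩

theorem card_T (n : ℕ) : (T n).card =
    ∑ p ∈ Finset.Icc 1 n ×ˢ Finset.Icc 1 n, Nat.gcd p.1 p.2 := by
  rw [T, Finset.card_map, Finset.card_sigma]
  simp

theorem mem_T {n : ℕ} {t : ℕ × ℕ × ℕ} (ht : t ∈ T n) : (1 ≤ t.1 ∧ t.1 ≤ n) ∧
    (1 ≤ t.2.1 ∧ t.2.1 ≤ n) ∧ t.2.2 < Nat.gcd t.1 t.2.1 := by
  simp only [T, Finset.mem_map, Finset.mem_sigma, Finset.mem_product, Finset.mem_Icc,
    Finset.mem_range] at ht
  obtain ⟨s, ⟨⟨h1, h2⟩, h3⟩, rfl⟩ := ht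
  exact ⟨h1, h2, h3⟩

theorem lower {S : Set W} (hSf : S.Finite) (hS : Subgroup.closure S = ⊤) :
    ∃ L Q : ℕ, ∀ n : ℕ, (∑ p ∈ Finset.Icc 1 n ×ˢ Finset.Icc 1 n, Nat.gcd p.1 p.2) ≤
      Q * autGrowth S (L * n) := by
  classical
  set L₀ := wordLen S (h 1 0) + wordLen S (h ⟨0, 1⟩ 0) + wordLen S (h 0 1) with hL₀
  have : Fintype (Giˣ × Giˣ) := Fintype.ofFinite _
  refine ⟨L₀ * 3, Fintype.card (Giˣ × Giˣ), fun n => ?_⟩
  rw [← card_T]
  let f : ℕ × ℕ × ℕ → Set W := fun t => MulAction.orbit (MulAut W) (rep t)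
  have hfib : ∀ C ∈ (T n).image f, ((T n).filter fun a => f a = C).card ≤
      Fintype.card (Giˣ × Giˣ) := by
    intro C hC
    rw [Finset.mem_image] at hC
    obtain ⟨t₀, _, rfl⟩ := hC
    have hex : ∀ t, f t = f t₀ → ∃ θ : MulAut W, θ (rep t₀) = rep t := by
      intro t ht
      have h1 : rep t ∈ MulAction.orbit (MulAut W) (rep t₀) := by
        have : rep t ∈ f t := MulAction.mem_orbit_self _
        rwa [ht] at this
      obtain ⟨θ, hθ⟩ := h1
      exact ⟨θ, hθ⟩
    rw [← Finset.card_univ]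
    apply Finset.card_le_card_of_injOn (fun t => if H : f t = f t₀ then dat (hex t H).choose
      else 1) (fun _ _ => Finset.mem_coe.mpr (Finset.mem_univ _))
    intro t ht t' ht' H
    rw [Finset.coe_filter] at ht ht'
    simp only [Set.mem_ofPred_eq] at ht ht'
    simp only [dif_pos ht.2, dif_pos ht'.2] at H
    have h1 := (hex t ht.2).choose_spec
    have h2 := (hex t' ht'.2).choose_spec
    obtain ⟨h3, k, h4⟩ := same_dat H (rep t₀) rfl
    rw [h1, h2] at h3 h4
    obtain ⟨x, y, r⟩ := t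
    obtain ⟨x', y', r'⟩ := t'
    have h5 := mem_T ht.1
    have h6 := mem_T ht'.1
    simp only [rep, h, Zsqrtd.ext_iff, Nat.cast_inj, Int.gcd_natCast_natCast] at h3 h4
    obtain ⟨rfl, rfl⟩ := h3
    simp only at h5 h6
    have h7 : (r : ℤ) = r' + k * (Nat.gcd x y : ℕ) := by omega
    have h8 : k = 0 := by
      by_contra hk
      rcases lt_or_gt_of_ne hk with hk | hk
      · have : k * (Nat.gcd x y : ℕ) ≤ -(Nat.gcd x y : ℕ) := by nlinarith [h5.2.2]
        omega
      · have : (Nat.gcd x y : ℕ) ≤ k * (Nat.gcd x y : ℕ) := by nlinarith [h5.2.2]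
        omega
    rw [h8] at h7
    have h9 : r = r' := by omega
    rw [h9]
  have h1 := Finset.card_le_mul_card_image (T n) _ hfib
  refine h1.trans (Nat.mul_le_mul_left _ ?_)
  rw [autGrowth_eq, ← Set.ncard_coe_finset, Finset.coe_image]
  apply Set.ncard_le_ncard
  · rintro _ ⟨t, ht, rfl⟩
    refine ⟨rep t, ?_, rfl⟩
    have h2 := mem_T (Finset.mem_coe.mp ht)
    obtain ⟨x, y, r⟩ := t
    simp only at h2
    have h3 := len_rep hS (L := L₀) (by omega) (by omega) (by omega) x y r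
    have h4 : Nat.gcd x y ≤ x := Nat.gcd_le_left _ (by omega)
    have h5 : L₀ * (x + y + r) ≤ L₀ * (3 * n) := Nat.mul_le_mul_left _ (by omega)
    change wordLen S (rep (x, y, r)) ≤ L₀ * 3 * n
    rw [mul_assoc]
    omega
  · exact (ball_finite hSf hS _).image _

end W

end Q29.AG
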