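import Pool.Agent.Q29.AG.Up
import Pool.Agent.Q29.AG.Arith

/-!
# Polynomially bounded but not polynomial automorphic growth
-/

namespace Q29.AG

namespace W

/-- the group is finitely generated -/
theorem closure_std : Subgroup.closure ({h 1 0, h ⟨0, 1⟩ 0, h 0 1, tau} : Set W) = ⊤ := by
  set H := Subgroup.closure ({h 1 0, h ⟨0, 1⟩ 0, h 0 1, tau} : Set W) with hH
  have h1 : h 1 0 ∈ H := Subgroup.subset_closure (by simp)
  have h2 : h ⟨0, 1⟩ 0 ∈ H := Subgroup.subset_closure (by simp)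
  have h3 : h 0 1 ∈ H := Subgroup.subset_closure (by simp)
  have h4 : tau ∈ H := Subgroup.subset_closure (by simp)
  have hz : ∀ (v : Gi) (z : ℤ), h v z ∈ H → ∀ m : ℤ, (h v z) ^ m ∈ H :=
    fun v z hm m => H.zpow_mem hm m
  have hpow : ∀ (v : Gi) (z m : ℤ), (h v z) ^ m = h (m * v) (m * z) := by
    intro v z m
    obtain ⟨n, rfl | rfl⟩ := Int.eq_nat_or_neg m
    · rw [zpow_natCast, h_pow]
      congr 1
    · rw [zpow_neg, zpow_natCast, h_pow, h_inv]
      congr 1
      · push_cast; ring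
      · push_cast; ring
  have hh : ∀ (v : Gi) (z : ℤ), h v z ∈ H := by
    intro v z
    have e : h v z = (h 1 0) ^ v.re * (h ⟨0, 1⟩ 0) ^ v.im * (h 0 1) ^ (z - v.re * v.im) := by
      rw [hpow, hpow, hpow, h_mul, h_mul]
      congr 1
      · apply Zsqrtd.ext <;> simp
      · simp [om]
    rw [e]
    exact H.mul_mem (H.mul_mem (hz _ _ h1 _) (hz _ _ h2 _)) (hz _ _ h3 _)
  have ht : ∀ e : Giˣ, (⟨0, 0, e⟩ : W) ∈ H := by
    intro e
    have p0 : (1 : W) ∈ H := H.one_mem
    have p1 := H.mul_mem h4 h4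
    have p2 := H.mul_mem p1 h4
    rcases unit_cases e with he | he | he | he
    · have : e = 1 := Units.ext he
      rw [this]; exact p0
    · have : (⟨0, 0, e⟩ : W) = tau * tau := by
        apply W.ext
        · rw [mul_v]; simp [tau]
        · rw [mul_z]; simp [tau, om_zero_left]
        · rw [mul_e]; apply Units.ext; rw [Units.val_mul, he]; decide
      rw [this]; exact p1
    · have : (⟨0, 0, e⟩ : W) = tau := by
        apply W.ext
        · rfl
        · rfl
        · apply Units.ext; rw [he]; rfl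
      rw [this]; exact h4
    · have : (⟨0, 0, e⟩ : W) = tau * tau * tau := by
        apply W.ext
        · rw [mul_v, mul_v]; simp [tau]
        · rw [mul_z, mul_z, mul_v]; simp [tau, om_zero_left]
        · rw [mul_e, mul_e]; apply Units.ext; rw [Units.val_mul, Units.val_mul, he]; decide
      rw [this]; exact p2
  rw [eq_top_iff]
  intro g _
  have e : g = h g.v g.z * ⟨0, 0, g.e⟩ := by
    apply W.ext
    · rw [mul_v]; simp [h]
    · rw [mul_z]; simp [h, om_zero_right]
    · rw [mul_e]; simp [h]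
  rw [e]
  exact H.mul_mem (hh _ _) (ht _)

theorem pos_autGrowth {S : Set W} (hSf : S.Finite) (hS : Subgroup.closure S = ⊤) :
    PolynomiallyBounded (autGrowth S) := by
  obtain ⟨M, q, hM, hup⟩ := upper hSf hS
  refine ⟨3, (q + 18) * M ^ 3, ?_, fun n => ?_⟩
  · have : 1 ≤ M ^ 3 := Nat.one_le_pow _ _ hM
    nlinarith
  · set N := M * (n + 1) with hN
    have hN1 : 1 ≤ N := Nat.mul_pos (by omega) (by omega)
    have hD : ∑ d ∈ Finset.Icc 1 N, N / d ≤ N * N := by
      calc ∑ d ∈ Finset.Icc 1 N, N / d ≤ ∑ d ∈ Finset.Icc 1 N, N :=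
            Finset.sum_le_sum fun d _ => Nat.div_le_self _ _
        _ = N * N := by simp
    have h1 := hup n
    rw [← hN] at h1
    have h2 : autGrowth S n ≤ (q + 18) * N ^ 3 := by
      calc autGrowth S n ≤ q * (N * N) + 18 * N * ∑ d ∈ Finset.Icc 1 N, N / d := h1
        _ ≤ q * (N * N) + 18 * N * (N * N) := by gcongr
        _ ≤ q * (N * N * N) + 18 * N * (N * N) := by
            have : N * N ≤ N * N * N := Nat.le_mul_of_pos_right _ hN1
            gcongr
        _ = (q + 18) * N ^ 3 := by ring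
    set c := (q + 18) * M ^ 3 with hc
    have hc1 : 1 ≤ c := by
      have : 1 ≤ M ^ 3 := Nat.one_le_pow _ _ hM
      rw [hc]; nlinarith
    calc autGrowth S n ≤ (q + 18) * N ^ 3 := h2
      _ = c * (n + 1) ^ 3 := by rw [hN, hc]; ring
      _ ≤ c * (c * n + c) ^ 3 := by
          gcongr
          nlinarith
      _ ≤ c * (c * n + c) ^ 3 + c := Nat.le_add_right _ _

theorem not_le_sq {S : Set W} (hSf : S.Finite) (hS : Subgroup.closure S = ⊤) {k : ℕ} (hk : k ≤ 2) :
    ¬ Dominated (autGrowth S) fun n => n ^ k := by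
  rintro ⟨c, hc, hdom⟩
  obtain ⟨L, Q, hlow⟩ := lower hSf hS
  set C : ℕ := c * (c * L + c) ^ 2 + c with hC
  obtain ⟨n, hn, hB⟩ := sum_gcd_unbounded (Q * C + 1)
  have h1 := hlow n
  have h2 := hdom (L * n)
  simp only at h2
  have h3 : (c * (L * n) + c) ^ k ≤ ((c * L + c) * n) ^ 2 := by
    have e1 : 1 ≤ c * (L * n) + c := by omega
    have e2 : c * (L * n) + c ≤ (c * L + c) * n := by nlinarith
    calc (c * (L * n) + c) ^ k ≤ (c * (L * n) + c) ^ 2 := Nat.pow_le_pow_right e1 hk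
      _ ≤ _ := Nat.pow_le_pow_left e2 2
  have h4 : autGrowth S (L * n) ≤ C * n ^ 2 := by
    calc autGrowth S (L * n) ≤ c * (c * (L * n) + c) ^ k + c := h2
      _ ≤ c * ((c * L + c) * n) ^ 2 + c * n ^ 2 := by
          have : 1 ≤ n ^ 2 := Nat.one_le_pow _ _ hn
          gcongr
          nlinarith
      _ = C * n ^ 2 := by rw [hC]; ring
  have h5 : (Q * C + 1) * n ^ 2 ≤ Q * (C * n ^ 2) := hB.trans (h1.trans (Nat.mul_le_mul_left _ h4))
  have h6 : 0 < n ^ 2 := by positivity
  nlinarith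

theorem not_ge_cube {S : Set W} (hSf : S.Finite) (hS : Subgroup.closure S = ⊤) {k : ℕ}
    (hk : 3 ≤ k) : ¬ Dominated (fun n => n ^ k) (autGrowth S) := by
  rintro ⟨c, hc, hdom⟩
  obtain ⟨M, q, hM, hup⟩ := upper hSf hS
  set E : ℕ := M * (3 * c) with hE
  have hE1 : 1 ≤ E := Nat.mul_pos (by omega) (by omega)
  -- the inequality in the reals
  have key : ∀ n : ℕ, 1 ≤ n → (n : ℝ) ≤ (c * ((q + 18) * E ^ 2) + c : ℝ) +
      (c * (18 * E ^ 2) : ℝ) * Real.log (E * n) := by
    intro n hn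
    have h1 := hdom n
    simp only at h1
    set N := M * (c * n + c + 1) with hN
    have hN1 : 1 ≤ N := Nat.mul_pos (by omega) (by omega)
    have hNE : N ≤ E * n := by
      have : c * n + c + 1 ≤ 3 * c * n := by nlinarith
      calc N ≤ M * (3 * c * n) := Nat.mul_le_mul_left _ this
        _ = E * n := by rw [hE]; ring
    have h2 := hup (c * n + c)
    rw [← hN] at h2
    have h3 := sum_div_le N
    have h4 : (autGrowth S (c * n + c) : ℝ) ≤ q * (N * N) + 18 * N * (N * (1 + Real.log N)) := by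
      calc (autGrowth S (c * n + c) : ℝ) ≤
            ((q * (N * N) + 18 * N * ∑ d ∈ Finset.Icc 1 N, N / d : ℕ) : ℝ) := by exact_mod_cast h2
        _ = q * (N * N) + 18 * N * ((∑ d ∈ Finset.Icc 1 N, N / d : ℕ) : ℝ) := by push_cast; ring
        _ ≤ _ := by gcongr
    have hNR : (1 : ℝ) ≤ N := by exact_mod_cast hN1
    have hNER : (N : ℝ) ≤ E * n := by exact_mod_cast hNE
    have hlog : Real.log N ≤ Real.log (E * n) := Real.log_le_log (by linarith) hNER
    have hlog0 : 0 ≤ Real.log N := Real.log_nonneg hNR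
    have hn1 : (1 : ℝ) ≤ n := by exact_mod_cast hn
    have hEn0 : (0 : ℝ) ≤ E * n := by positivity
    have h5 : (autGrowth S (c * n + c) : ℝ) ≤
        ((q + 18) * E ^ 2 + 18 * E ^ 2 * Real.log (E * n)) * n ^ 2 := by
      have hNN : (N : ℝ) * N ≤ (E * n) * (E * n) := mul_le_mul hNER hNER (by linarith) hEn0
      calc (autGrowth S (c * n + c) : ℝ) ≤ q * (N * N) + 18 * N * (N * (1 + Real.log N)) := h4
        _ = (q + 18 * (1 + Real.log N)) * (N * N) := by ring
        _ ≤ (q + 18 * (1 + Real.log (E * n))) * ((E * n) * (E * n)) := by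
            apply mul_le_mul _ hNN (by positivity) (by
              have : 0 ≤ Real.log (E * n) := hlog0.trans hlog
              positivity)
            linarith
        _ = _ := by ring
    have h6 : (n : ℝ) ^ 3 ≤ c * (autGrowth S (c * n + c) : ℝ) + c := by
      have : n ^ 3 ≤ c * autGrowth S (c * n + c) + c :=
        (Nat.pow_le_pow_right (by omega) hk).trans h1
      exact_mod_cast this
    have hc0 : (0 : ℝ) ≤ c := by positivity
    have h7 : (n : ℝ) ^ 3 ≤ (c * ((q + 18) * E ^ 2 + 18 * E ^ 2 * Real.log (E * n)) + c) * n ^ 2 := by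
      calc (n : ℝ) ^ 3 ≤ c * (autGrowth S (c * n + c) : ℝ) + c := h6
        _ ≤ c * (((q + 18) * E ^ 2 + 18 * E ^ 2 * Real.log (E * n)) * n ^ 2) + c * n ^ 2 := by
            have : (1 : ℝ) ≤ (n : ℝ) ^ 2 := one_le_pow₀ hn1
            gcongr
            nlinarith
        _ = _ := by ring
    have hn2 : (0 : ℝ) < (n : ℝ) ^ 2 := by positivity
    have h8 : (n : ℝ) * n ^ 2 ≤ (c * ((q + 18) * E ^ 2 + 18 * E ^ 2 * Real.log (E * n)) + c) * n ^ 2 := by
      calc (n : ℝ) * n ^ 2 = (n : ℝ) ^ 3 := by ring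
        _ ≤ _ := h7
    have h9 := le_of_mul_le_mul_right h8 hn2
    linarith
  -- contradiction at a large square
  set K₁ : ℕ := c * ((q + 18) * E ^ 2) + c with hK₁
  set K₂ : ℕ := c * (18 * E ^ 2) with hK₂
  set m : ℕ := K₁ + 2 * K₂ * E + 1 with hm
  have hm1 : 1 ≤ m := by omega
  have h1 := key (m ^ 2) (Nat.one_le_pow _ _ hm1)
  have hlog : Real.log (E * ((m ^ 2 : ℕ) : ℝ)) ≤ 2 * (E * m) := by
    have e1 : (E : ℝ) * ((m ^ 2 : ℕ) : ℝ) ≤ (E * m : ℝ) ^ 2 := by
      push_cast
      have : (1 : ℝ) ≤ E := by exact_mod_cast hE1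
      have : (E : ℝ) ≤ E ^ 2 := by nlinarith
      rw [mul_pow]
      gcongr
    have e2 : (0 : ℝ) < E * ((m ^ 2 : ℕ) : ℝ) := by
      have : 0 < E := hE1
      have : 0 < m := hm1
      positivity
    have e3 : (0 : ℝ) < E * m := by
      have : 0 < E := hE1
      have : 0 < m := hm1
      positivity
    calc Real.log (E * ((m ^ 2 : ℕ) : ℝ)) ≤ Real.log ((E * m : ℝ) ^ 2) := Real.log_le_log e2 e1
      _ = 2 * Real.log (E * m) := by rw [Real.log_pow]; push_cast; ring
      _ ≤ 2 * (E * m) := by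
          have := Real.log_le_sub_one_of_pos e3
          linarith
  have h2 : ((m ^ 2 : ℕ) : ℝ) ≤ K₁ + K₂ * (2 * (E * m)) := by
    have hK1 : (K₁ : ℝ) = c * ((q + 18) * E ^ 2) + c := by rw [hK₁]; push_cast; ring
    have hK2 : (K₂ : ℝ) = c * (18 * E ^ 2) := by rw [hK₂]; push_cast; ring
    rw [hK1, hK2]
    refine h1.trans ?_
    gcongr
  have h3 : m ^ 2 ≤ K₁ + K₂ * (2 * (E * m)) := by exact_mod_cast h2
  have h4 : m ^ 2 = m * (K₁ + 2 * K₂ * E + 1) := by rw [sq]
  nlinarith

theorem not_polynomial {S : Set W} (hSf : S.Finite) (hS : Subgroup.closure S = ⊤) :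
    ¬ IsPolynomial (autGrowth S) := by
  rintro ⟨k, h1, h2⟩
  rcases Nat.lt_or_ge k 3 with hk | hk
  · exact not_le_sq hSf hS (by omega) h1
  · exact not_ge_cube hSf hS hk h2

end W

end Q29.AG
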