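import Pool.Agent.Q29.AG.Low

/-!
# Automorphic growth: the upper bound
-/

namespace Q29.AG

/-- the sup norm -/
def nm (v : Gi) : ℕ := max v.re.natAbs v.im.natAbs

theorem nm_add (v w : Gi) : nm (v + w) ≤ nm v + nm w := by
  simp only [nm, Zsqrtd.re_add, Zsqrtd.im_add]
  omega

theorem nm_neg (v : Gi) : nm (-v) = nm v := by
  simp [nm]

theorem nm_unit (e : Giˣ) (v : Gi) : nm (e * v) = nm v := by
  rcases unit_cases e with h | h | h | h <;> rw [h] <;> simp [nm, max_comm]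

theorem om_le (v w : Gi) : (om v w).natAbs ≤ 2 * (nm v * nm w) := by
  have h1 : v.re.natAbs ≤ nm v := le_max_left _ _
  have h2 : v.im.natAbs ≤ nm v := le_max_right _ _
  have h3 : w.re.natAbs ≤ nm w := le_max_left _ _
  have h4 : w.im.natAbs ≤ nm w := le_max_right _ _
  have h5 : (v.re * w.im).natAbs ≤ nm v * nm w := by
    rw [Int.natAbs_mul]; exact Nat.mul_le_mul h1 h4
  have h6 : (v.im * w.re).natAbs ≤ nm v * nm w := by
    rw [Int.natAbs_mul]; exact Nat.mul_le_mul h2 h3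
  unfold om
  omega

namespace W

theorem word_bound {S : Set W} {M : ℕ} (hM : ∀ s ∈ S, nm s.v ≤ M ∧ s.z.natAbs ≤ M) (l : List W)
    (hl : ∀ x ∈ l, x ∈ S ∨ x⁻¹ ∈ S) : nm l.prod.v ≤ M * l.length ∧
      l.prod.z.natAbs ≤ M * l.length + (M * l.length) * (M * l.length) := by
  induction l with
  | nil => simp [one_v, one_z, nm]
  | cons x l ih =>
    obtain ⟨h1, h2⟩ := ih fun y hy => hl y (by simp [hy])
    have hx : nm x.v ≤ M ∧ x.z.natAbs ≤ M := by
      rcases hl x (by simp) with h | h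
      · exact hM x h
      · have := hM _ h
        rw [inv_v, inv_z, nm_neg, nm_unit, Int.natAbs_neg] at this
        exact this
    rw [List.prod_cons, List.length_cons, mul_v, mul_z]
    have h3 := nm_add x.v (x.e * l.prod.v)
    rw [nm_unit] at h3
    have h4 := om_le x.v (x.e * l.prod.v)
    rw [nm_unit] at h4
    have h5 : nm x.v * nm l.prod.v ≤ M * (M * l.length) := Nat.mul_le_mul hx.1 h1
    constructor
    · calc _ ≤ M + M * l.length := by omega
        _ = _ := by ring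
    · calc _ ≤ M + (M * l.length + (M * l.length) * (M * l.length)) + 2 * (M * (M * l.length)) := by
            omega
        _ ≤ _ := by nlinarith [Nat.zero_le (M * M)]

theorem conj_v (u : Gi) (g : W) : (h u 0 * g * (h u 0)⁻¹).v = u + g.v - g.e * u := by
  rw [h_inv, mul_v, mul_v, mul_e]
  simp [h]
  ring

theorem conj_z (u : Gi) (g : W) : (h u 0 * g * (h u 0)⁻¹).z =
    g.z + om u g.v - om (u + g.v) (g.e * u) := by
  rw [h_inv, mul_z, mul_v, mul_z, mul_e]
  simp only [h, Units.val_one, one_mul, zero_add, neg_zero, add_zero, mul_neg, om_neg_right]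
  ring

theorem conj_e (u : Gi) (g : W) : (h u 0 * g * (h u 0)⁻¹).e = g.e := by
  rw [h_inv, mul_e, mul_e]
  simp [h]

theorem orbit_conj (u g : W) :
    MulAction.orbit (MulAut W) (u * g * u⁻¹) = MulAction.orbit (MulAut W) g := by
  have : u * g * u⁻¹ = MulAut.conj u • g := by simp [MulAut.conj_apply]
  rw [this, MulAction.orbit_smul]

/-- case (b): a non-central element of the Heisenberg group -/
theorem reduce_h (v : Gi) (z : ℤ) : ∃ r : ℤ, 0 ≤ r ∧ (v ≠ 0 → r < 2 * Int.gcd v.re v.im) ∧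
    MulAction.orbit (MulAut W) (h v z) = MulAction.orbit (MulAut W) (h v r) ∨ v = 0 := by
  by_cases hv : v = 0
  · exact ⟨0, Or.inr hv⟩
  · set d : ℤ := ((Int.gcd v.re v.im : ℕ) : ℤ) with hd
    have hdpos : 0 < d := by
      have : Int.gcd v.re v.im ≠ 0 := by
        intro h0
        rw [Int.gcd_eq_zero_iff] at h0
        exact hv (Zsqrtd.ext h0.1 h0.2)
      omega
    refine ⟨z % (2 * d), Or.inl ⟨Int.emod_nonneg _ (by omega), fun _ => Int.emod_lt_of_pos _
      (by omega), ?_⟩⟩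
    have hb : d = v.re * Int.gcdA v.re v.im + v.im * Int.gcdB v.re v.im := Int.gcd_eq_gcd_ab _ _
    set q := z / (2 * d) with hq
    have hz : z = z % (2 * d) + 2 * d * q := (Int.emod_add_mul_ediv z (2 * d)).symm
    rw [← orbit_conj (h ⟨-q * Int.gcdB v.re v.im, q * Int.gcdA v.re v.im⟩ 0) (h v z)]
    congr 1
    apply W.ext
    · rw [conj_v]; simp [h]
    · rw [conj_z]
      simp only [h, Units.val_one, one_mul, om]
      simp only [Zsqrtd.re_add, Zsqrtd.im_add]
      have : z % (2 * d) = z - 2 * d * q := by omega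
      rw [this]
      linear_combination (2 * q) * hb
    · rw [conj_e]; rfl

/-- `2` is divisible by `1 - e` -/
theorem exists_k (e : Giˣ) (he : e ≠ 1) : ∃ k : Gi, (1 - (e : Gi)) * k = 2 ∧
    ∀ w : Gi, nm (k * w) ≤ 2 * nm w := by
  rcases unit_cases e with h | h | h | h
  · exact absurd (Units.ext h) he
  · refine ⟨1, by rw [h]; decide, fun w => by rw [one_mul]; omega⟩
  · refine ⟨1 + e, by rw [h]; decide, fun w => ?_⟩
    rw [add_mul, one_mul]
    have := nm_add w (e * w)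
    rw [nm_unit] at this
    omega
  · refine ⟨1 + e, by rw [h]; decide, fun w => ?_⟩
    rw [add_mul, one_mul]
    have := nm_add w (e * w)
    rw [nm_unit] at this
    omega

/-- case (c): elements outside the Heisenberg group -/
theorem reduce_e (g : W) (hg : g.e ≠ 1) {N : ℕ} (hv : nm g.v ≤ N) (hz : g.z.natAbs ≤ N + N * N) :
    ∃ (a b : ℤ) (z : ℤ), 0 ≤ a ∧ a ≤ 1 ∧ 0 ≤ b ∧ b ≤ 1 ∧ z.natAbs ≤ N + 17 * (N * N) ∧
      MulAction.orbit (MulAut W) g = MulAction.orbit (MulAut W) ⟨⟨a, b⟩, z, g.e⟩ := by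
  obtain ⟨k, hk, hkn⟩ := exists_k g.e hg
  set w : Gi := ⟨g.v.re / 2, g.v.im / 2⟩ with hw
  set u : Gi := -(k * w) with hu
  have hwn : nm w ≤ N := by
    refine le_trans ?_ hv
    simp only [nm, hw]
    omega
  have hun : nm u ≤ 2 * N := by
    rw [hu, nm_neg]
    have := hkn w
    omega
  refine ⟨g.v.re % 2, g.v.im % 2, g.z + om u g.v - om (u + g.v) (g.e * u), by omega, by omega,
    by omega, by omega, ?_, ?_⟩
  · have e1 := om_le u g.v
    have e2 := om_le (u + g.v) (g.e * u)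
    rw [nm_unit] at e2
    have e3 := nm_add u g.v
    have e4 : nm u * nm g.v ≤ 2 * N * N := Nat.mul_le_mul hun hv
    have e5 : nm (u + g.v) * nm u ≤ 3 * N * (2 * N) := Nat.mul_le_mul (by omega) hun
    have e6 : 2 * N * N = 2 * (N * N) := by ring
    have e7 : 3 * N * (2 * N) = 6 * (N * N) := by ring
    rw [e6] at e4
    rw [e7] at e5
    omega
  · rw [← orbit_conj (h u 0) g]
    congr 1
    apply W.ext
    · rw [conj_v]
      have h1 : u + g.v - g.e * u = g.v - (1 - (g.e : Gi)) * k * w := by rw [hu]; ring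
      rw [h1, hk]
      apply Zsqrtd.ext
      · simp [hw]
        omega
      · simp [hw]
        omega
    · rw [conj_z]
    · rw [conj_e]

open Classical in
/-- representatives of the orbits -/
noncomputable def reps (N : ℕ) : Finset W :=
  ((Finset.Icc (-((N + N * N : ℕ) : ℤ)) ((N + N * N : ℕ) : ℤ)).image fun z => h 0 z) ∪
  (((Finset.Icc 1 N).sigma fun d => ((Finset.Icc (-((N / d : ℕ) : ℤ)) ((N / d : ℕ) : ℤ)) ×ˢ
    (Finset.Icc (-((N / d : ℕ) : ℤ)) ((N / d : ℕ) : ℤ))) ×ˢ Finset.Ico (0 : ℤ) (2 * (d : ℕ))).image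
      fun s => h ⟨s.1 * s.2.1.1, s.1 * s.2.1.2⟩ s.2.2) ∪
  (((Set.toFinite (Set.univ : Set Giˣ)).toFinset ×ˢ ((Finset.Icc (0 : ℤ) 1) ×ˢ
    (Finset.Icc (0 : ℤ) 1)) ×ˢ Finset.Icc (-((N + 17 * (N * N) : ℕ) : ℤ))
      ((N + 17 * (N * N) : ℕ) : ℤ)).image fun s => ⟨⟨s.2.1.1, s.2.1.2⟩, s.2.2, s.1⟩)

theorem mem_reps (g : W) {N : ℕ} (hv : nm g.v ≤ N) (hz : g.z.natAbs ≤ N + N * N) :
    ∃ g' ∈ reps N, MulAction.orbit (MulAut W) g = MulAction.orbit (MulAut W) g' := by
  classical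
  by_cases he : g.e = 1
  · by_cases hv0 : g.v = 0
    · refine ⟨h 0 g.z, ?_, ?_⟩
      · rw [reps, Finset.mem_union, Finset.mem_union]
        left; left
        rw [Finset.mem_image]
        exact ⟨g.z, Finset.mem_Icc.mpr ⟨by omega, by omega⟩, rfl⟩
      · conv_lhs => rw [eq_h he, hv0]
    · obtain ⟨r, hr⟩ := reduce_h g.v g.z
      rcases hr with ⟨hr0, hr1, hr2⟩ | hr
      · refine ⟨h g.v r, ?_, by conv_lhs => rw [eq_h he, hr2]⟩
        rw [reps, Finset.mem_union, Finset.mem_union]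
        left; right
        rw [Finset.mem_image]
        have hr1 := hr1 hv0
        set d := Int.gcd g.v.re g.v.im with hd
        have hdpos : 0 < d := by
          rcases Nat.eq_zero_or_pos d with h0 | h0
          · exfalso
            rw [hd, Int.gcd_eq_zero_iff] at h0
            exact hv0 (Zsqrtd.ext h0.1 h0.2)
          · exact h0
        obtain ⟨a, ha⟩ : (d : ℤ) ∣ g.v.re := Int.gcd_dvd_left ..
        obtain ⟨b, hb⟩ : (d : ℤ) ∣ g.v.im := Int.gcd_dvd_right ..
        have e1 : d * a.natAbs ≤ N := by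
          have : g.v.re.natAbs = d * a.natAbs := by rw [ha, Int.natAbs_mul, Int.natAbs_natCast]
          rw [← this]
          exact (le_max_left _ _).trans hv
        have e2 : d * b.natAbs ≤ N := by
          have : g.v.im.natAbs = d * b.natAbs := by rw [hb, Int.natAbs_mul, Int.natAbs_natCast]
          rw [← this]
          exact (le_max_right _ _).trans hv
        have f1 : a.natAbs ≤ N / d := (Nat.le_div_iff_mul_le hdpos).mpr (by rw [mul_comm]; exact e1)
        have f2 : b.natAbs ≤ N / d := (Nat.le_div_iff_mul_le hdpos).mpr (by rw [mul_comm]; exact e2)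
        have hdN : d ≤ N := by
          have hab : a ≠ 0 ∨ b ≠ 0 := by
            by_contra hcon
            push Not at hcon
            apply hv0
            apply Zsqrtd.ext
            · rw [ha, hcon.1]; simp
            · rw [hb, hcon.2]; simp
          rcases hab with h | h
          · have : 1 ≤ a.natAbs := Int.natAbs_pos.mpr h
            nlinarith
          · have : 1 ≤ b.natAbs := Int.natAbs_pos.mpr h
            nlinarith
        refine ⟨⟨d, (a, b), r⟩, ?_, ?_⟩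
        · rw [Finset.mem_sigma, Finset.mem_product, Finset.mem_product]
          simp only [Finset.mem_Icc, Finset.mem_Ico]
          refine ⟨⟨by omega, hdN⟩, ⟨⟨by omega, by omega⟩, by omega, by omega⟩, hr0, by omega⟩
        · simp only
          congr 1
          apply Zsqrtd.ext
          · exact ha.symm
          · exact hb.symm
      · exact absurd hr hv0
  · obtain ⟨a, b, z, h1, h2, h3, h4, h5, h6⟩ := reduce_e g he hv hz
    refine ⟨_, ?_, h6⟩
    rw [reps, Finset.mem_union]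
    right
    rw [Finset.mem_image]
    refine ⟨(g.e, (a, b), z), ?_, rfl⟩
    rw [Finset.mem_product, Finset.mem_product, Finset.mem_product]
    simp only [Finset.mem_Icc, Set.Finite.mem_toFinset, Set.mem_univ, true_and]
    exact ⟨⟨⟨h1, h2⟩, h3, h4⟩, by omega, by omega⟩

theorem card_reps : ∃ q : ℕ, ∀ N : ℕ, 1 ≤ N → (reps N).card ≤
    q * (N * N) + 18 * N * ∑ d ∈ Finset.Icc 1 N, N / d := by
  classical
  set u := (Set.toFinite (Set.univ : Set Giˣ)).toFinset.card with hu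
  refine ⟨5 + 148 * u, fun N hN => ?_⟩
  have hNN : N ≤ N * N := Nat.le_mul_self N
  have h1 := Finset.card_union_le
    (((Finset.Icc (-((N + N * N : ℕ) : ℤ)) ((N + N * N : ℕ) : ℤ)).image fun z => h 0 z) ∪
    (((Finset.Icc 1 N).sigma fun d => ((Finset.Icc (-((N / d : ℕ) : ℤ)) ((N / d : ℕ) : ℤ)) ×ˢ
    (Finset.Icc (-((N / d : ℕ) : ℤ)) ((N / d : ℕ) : ℤ))) ×ˢ Finset.Ico (0 : ℤ) (2 * (d : ℕ))).image
      fun s => h ⟨s.1 * s.2.1.1, s.1 * s.2.1.2⟩ s.2.2))
    (((Set.toFinite (Set.univ : Set Giˣ)).toFinset ×ˢ ((Finset.Icc (0 : ℤ) 1) ×ˢ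
    (Finset.Icc (0 : ℤ) 1)) ×ˢ Finset.Icc (-((N + 17 * (N * N) : ℕ) : ℤ))
      ((N + 17 * (N * N) : ℕ) : ℤ)).image fun s => (⟨⟨s.2.1.1, s.2.1.2⟩, s.2.2, s.1⟩ : W))
  have h2 := Finset.card_union_le
    ((Finset.Icc (-((N + N * N : ℕ) : ℤ)) ((N + N * N : ℕ) : ℤ)).image fun z => h 0 z)
    (((Finset.Icc 1 N).sigma fun d => ((Finset.Icc (-((N / d : ℕ) : ℤ)) ((N / d : ℕ) : ℤ)) ×ˢ
    (Finset.Icc (-((N / d : ℕ) : ℤ)) ((N / d : ℕ) : ℤ))) ×ˢ Finset.Ico (0 : ℤ) (2 * (d : ℕ))).image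
      fun s => h ⟨s.1 * s.2.1.1, s.1 * s.2.1.2⟩ s.2.2)
  have ha : ((Finset.Icc (-((N + N * N : ℕ) : ℤ)) ((N + N * N : ℕ) : ℤ)).image
      fun z => h 0 z).card ≤ 5 * (N * N) := by
    refine Finset.card_image_le.trans ?_
    rw [Int.card_Icc]
    omega
  have hb : (((Finset.Icc 1 N).sigma fun d => ((Finset.Icc (-((N / d : ℕ) : ℤ)) ((N / d : ℕ) : ℤ)) ×ˢ
    (Finset.Icc (-((N / d : ℕ) : ℤ)) ((N / d : ℕ) : ℤ))) ×ˢ Finset.Ico (0 : ℤ) (2 * (d : ℕ))).image
      fun s => h ⟨s.1 * s.2.1.1, s.1 * s.2.1.2⟩ s.2.2).card ≤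
      18 * N * ∑ d ∈ Finset.Icc 1 N, N / d := by
    refine Finset.card_image_le.trans ?_
    rw [Finset.card_sigma, Finset.mul_sum]
    apply Finset.sum_le_sum
    intro d hd
    rw [Finset.mem_Icc] at hd
    rw [Finset.card_product, Finset.card_product, Int.card_Icc, Int.card_Ico]
    have hq : 1 ≤ N / d := (Nat.le_div_iff_mul_le (by omega)).mpr (by omega)
    have hdq : d * (N / d) ≤ N := Nat.mul_div_le N d
    have e1 : (((N / d : ℕ) : ℤ) + 1 - -((N / d : ℕ) : ℤ)).toNat = 2 * (N / d) + 1 := by omega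
    have e2 : ((2 * (d : ℕ) : ℤ) - 0).toNat = 2 * d := by omega
    rw [e1, e2]
    generalize N / d = x at hq hdq
    calc (2 * x + 1) * (2 * x + 1) * (2 * d) ≤ (3 * x) * (3 * x) * (2 * d) := by gcongr <;> omega
      _ = 18 * (d * x) * x := by ring
      _ ≤ 18 * N * x := by gcongr
  have hc : (((Set.toFinite (Set.univ : Set Giˣ)).toFinset ×ˢ ((Finset.Icc (0 : ℤ) 1) ×ˢ
    (Finset.Icc (0 : ℤ) 1)) ×ˢ Finset.Icc (-((N + 17 * (N * N) : ℕ) : ℤ))
      ((N + 17 * (N * N) : ℕ) : ℤ)).image fun s => (⟨⟨s.2.1.1, s.2.1.2⟩, s.2.2, s.1⟩ : W)).card ≤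
      148 * u * (N * N) := by
    refine Finset.card_image_le.trans ?_
    rw [Finset.card_product, Finset.card_product, Finset.card_product, Int.card_Icc, Int.card_Icc,
      ← hu]
    have e1 : (((N + 17 * (N * N) : ℕ) : ℤ) + 1 - -((N + 17 * (N * N) : ℕ) : ℤ)).toNat ≤
        37 * (N * N) := by omega
    calc u * (((1 : ℤ) + 1 - 0).toNat * ((1 : ℤ) + 1 - 0).toNat *
          (((N + 17 * (N * N) : ℕ) : ℤ) + 1 - -((N + 17 * (N * N) : ℕ) : ℤ)).toNat)
        ≤ u * (((1 : ℤ) + 1 - 0).toNat * ((1 : ℤ) + 1 - 0).toNat * (37 * (N * N))) := by gcongr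
      _ = u * (2 * 2 * (37 * (N * N))) := rfl
      _ = 148 * u * (N * N) := by ring
  rw [reps]
  refine h1.trans ?_
  have : (5 + 148 * u) * (N * N) = 5 * (N * N) + 148 * u * (N * N) := by ring
  omega

/-- the upper bound for the automorphic growth -/
theorem upper {S : Set W} (hSf : S.Finite) (hS : Subgroup.closure S = ⊤) :
    ∃ M q : ℕ, 1 ≤ M ∧ ∀ n, autGrowth S n ≤ q * ((M * (n + 1)) * (M * (n + 1))) +
      18 * (M * (n + 1)) * ∑ d ∈ Finset.Icc 1 (M * (n + 1)), (M * (n + 1)) / d := by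
  classical
  obtain ⟨q, hq⟩ := card_reps
  set M : ℕ := ∑ s ∈ hSf.toFinset, (nm s.v + s.z.natAbs) + 1 with hM
  have hMb : ∀ s ∈ S, nm s.v ≤ M ∧ s.z.natAbs ≤ M := by
    intro s hs
    have := Finset.single_le_sum (f := fun s : W => nm s.v + s.z.natAbs)
      (fun _ _ => Nat.zero_le _) (hSf.mem_toFinset.mpr hs)
    constructor <;> omega
  refine ⟨M, q, by omega, fun n => ?_⟩
  set N := M * (n + 1) with hN
  have hN1 : 1 ≤ N := Nat.mul_pos (by omega) (by omega)
  refine le_trans ?_ (hq N hN1)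
  rw [autGrowth_eq, ← Set.ncard_coe_finset]
  have hsub : (fun g => MulAction.orbit (MulAut W) g) '' {g : W | wordLen S g ≤ n} ⊆
      (fun g => MulAction.orbit (MulAut W) g) '' (reps N : Set W) := by
    rintro _ ⟨g, hg, rfl⟩
    obtain ⟨l, hl, hs, rfl⟩ := exists_word hS g
    have hg' : wordLen S l.prod ≤ n := hg
    obtain ⟨h1, h2⟩ := word_bound hMb l hs
    have h3 : M * l.length ≤ N := Nat.mul_le_mul_left _ (by omega)
    obtain ⟨g', hg', hgo⟩ := mem_reps l.prod (N := N) (h1.trans h3)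
      (h2.trans (Nat.add_le_add h3 (Nat.mul_le_mul h3 h3)))
    exact ⟨g', hg', hgo.symm⟩
  refine (Set.ncard_le_ncard hsub ((Finset.finite_toSet _).image _)).trans ?_
  exact Set.ncard_image_le (Finset.finite_toSet _)

end W

end Q29.AG
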